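import Mathlib

/-!
# MP_55034c_pr, Q1: the stochastic dominance fails

We disprove the stochastic dominance of `|R(t₁+…+t_k)|` (one chain) by
`|⋃ R_i(t_i)|` (`k` independent chains).  The counterexample has `5` states, `k = 2`,
`t₁ = t₂ = 2` and `y = 5`: the complete graph `K₅` with unit weights and one heavy loop.
-/

set_option autoImplicit false

namespace Pool.Agent.Results.MP_55034c_pr.UnionOfRanges

open Finset

/-- `P` is the transition matrix of a reversible, irreducible and aperiodic Markov chain on the
finite set `V` with stationary distribution `π`. -/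
structure IsChain {V : Type} [Fintype V] [DecidableEq V] (P : Matrix V V ℝ) (π : V → ℝ) :
    Prop where
  /-- entries are nonnegative -/
  nonneg : ∀ x y, 0 ≤ P x y
  /-- rows sum to one -/
  row : ∀ x, ∑ y, P x y = 1
  /-- `π` is nonnegative -/
  pi_nonneg : ∀ x, 0 ≤ π x
  /-- `π` has total mass one -/
  pi_sum : ∑ x, π x = 1
  /-- detailed balance: the chain is reversible with respect to `π` -/
  rev : ∀ x y, π x * P x y = π y * P y x
  /-- irreducibility -/
  irred : ∀ x y, ∃ n : ℕ, 0 < (P ^ n) x y
  /-- aperiodicity: the possible return times of each state have greatest common divisor one -/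
  aper : ∀ x, ∀ d : ℕ, (∀ n : ℕ, 0 < (P ^ n) x x → d ∣ n) → d = 1

/-- The probability that the stationary chain follows the trajectory `x 0, x 1, …, x s`. -/
noncomputable def pathProb {V : Type} (P : Matrix V V ℝ) (π : V → ℝ) (s : ℕ)
    (x : Fin (s + 1) → V) : ℝ :=
  π (x 0) * ∏ i : Fin s, P (x i.castSucc) (x i.succ)

/-- The range of a trajectory. -/
def rng {V : Type} [DecidableEq V] (s : ℕ) (x : Fin (s + 1) → V) : Finset V :=
  Finset.univ.image x

/-- `P_π (|R(s)| ≥ y)`. -/
noncomputable def probSingle {V : Type} [Fintype V] [DecidableEq V] (P : Matrix V V ℝ) (π : V → ℝ)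
    (s : ℕ) (y : ℝ) : ℝ :=
  ∑ x : Fin (s + 1) → V, if y ≤ ((rng s x).card : ℝ) then pathProb P π s x else 0

/-- `P_{π^k} (|R_1(t_1) ∪ … ∪ R_k(t_k)| ≥ y)` for independent stationary chains. -/
noncomputable def probUnion {V : Type} [Fintype V] [DecidableEq V] (P : Matrix V V ℝ) (π : V → ℝ)
    (k : ℕ) (t : Fin k → ℕ) (y : ℝ) : ℝ :=
  ∑ x : (i : Fin k) → (Fin (t i + 1) → V),
    if y ≤ (((Finset.univ : Finset (Fin k)).biUnion fun i => rng (t i) (x i)).card : ℝ) then
      ∏ i, pathProb P π (t i) (x i) else 0

/-! ## The counterexample -/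

/-- The transition matrix: from `0` stay with probability `9996/10000`, go to each other state with
probability `1/10000`; from the other states go to each different state with probability `1/4`. -/
noncomputable def P5 : Matrix (Fin 5) (Fin 5) ℝ := fun x y =>
  if x = 0 then (if y = 0 then 9996 / 10000 else 1 / 10000) else (if y = x then 0 else 1 / 4)

/-- Its stationary distribution. -/
noncomputable def pi5 : Fin 5 → ℝ := fun x => if x = 0 then 10000 / 10016 else 4 / 10016

theorem P5_nonneg (x y : Fin 5) : 0 ≤ P5 x y := by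
  unfold P5
  split_ifs <;> norm_num

theorem pi5_nonneg (x : Fin 5) : 0 ≤ pi5 x := by
  unfold pi5
  split_ifs <;> norm_num

theorem P5_row (x : Fin 5) : ∑ y, P5 x y = 1 := by
  fin_cases x <;> simp [P5, Fin.sum_univ_succ] <;> norm_num

theorem pi5_sum : ∑ x, pi5 x = 1 := by
  simp [pi5, Fin.sum_univ_succ]
  norm_num

theorem P5_sq_pos (x y : Fin 5) : 0 < (P5 ^ 2) x y := by
  rw [pow_two, Matrix.mul_apply]
  fin_cases x <;> fin_cases y <;> simp [P5, Fin.sum_univ_succ] <;> norm_num

theorem P5_cube_pos (x y : Fin 5) : 0 < (P5 ^ 3) x y := by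
  rw [pow_succ, Matrix.mul_apply]
  apply Finset.sum_pos'
  · intro z _
    exact mul_nonneg (P5_sq_pos x z).le (P5_nonneg z y)
  · obtain ⟨z, hz⟩ : ∃ z, 0 < P5 z y := by
      by_cases hy : y = 0
      · exact ⟨0, by simp [P5, hy]⟩
      · exact ⟨0, by simp [P5, hy]⟩
    exact ⟨z, Finset.mem_univ _, mul_pos (P5_sq_pos x z) hz⟩

theorem isChain5 : IsChain P5 pi5 where
  nonneg := P5_nonneg
  row := P5_row
  pi_nonneg := pi5_nonneg
  pi_sum := pi5_sum
  rev := by
    intro x y
    by_cases hxy : x = y
    · rw [hxy]
    have hyx : ¬ y = x := fun h => hxy h.symm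
    unfold P5 pi5
    by_cases hx : x = 0 <;> by_cases hy : y = 0
    · exact absurd (hx.trans hy.symm) hxy
    · have h0 : ¬ (0 : Fin 5) = y := fun h => hy h.symm
      simp only [hx, hy, h0, if_true, if_false]
      norm_num
    · have h0 : ¬ (0 : Fin 5) = x := fun h => hx h.symm
      simp only [hx, hy, h0, if_true, if_false]
      norm_num
    · simp only [hx, hy, hxy, hyx, if_false]
  irred := fun x y => ⟨2, P5_sq_pos x y⟩
  aper := by
    intro x d h
    have h2 := h 2 (P5_sq_pos x x)
    have h3 := h 3 (P5_cube_pos x x)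
    have : d ∣ 3 - 2 := Nat.dvd_sub h3 h2
    exact Nat.dvd_one.1 this

/-- The trajectory probabilities sum to one. -/
theorem sum_pathProb {V : Type} [Fintype V] [DecidableEq V] {P : Matrix V V ℝ} {π : V → ℝ}
    (h : IsChain P π) (s : ℕ) : ∑ x : Fin (s + 1) → V, pathProb P π s x = 1 := by
  induction s with
  | zero =>
    rw [← (Equiv.funUnique (Fin 1) V).symm.sum_comp]
    simpa [pathProb] using h.pi_sum
  | succ s ih =>
    rw [← (Fin.snocEquiv (fun _ : Fin (s + 2) => V)).sum_comp, Fintype.sum_prod_type_right, ← ih]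
    refine Finset.sum_congr rfl fun x _ => ?_
    have h1 : ∀ v : V, pathProb P π (s + 1) ((Fin.snocEquiv (fun _ : Fin (s + 2) => V)) (v, x)) =
        pathProb P π s x * P (x (Fin.last s)) v := by
      intro v
      simp only [pathProb, Fin.prod_univ_castSucc, Fin.snocEquiv_apply]
      rw [mul_assoc]
      congr 1
      congr 1
      · refine Finset.prod_congr rfl fun i _ => ?_
        congr 1
        · exact Fin.snoc_castSucc (α := fun _ => V) v x i.castSucc
        · rw [Fin.succ_castSucc]
          exact Fin.snoc_castSucc (α := fun _ => V) v x i.succ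
      · congr 1
        · exact Fin.snoc_castSucc (α := fun _ => V) v x (Fin.last s)
        · rw [Fin.succ_last]
          exact Fin.snoc_last (α := fun _ => V) v x
    simp_rw [h1]
    rw [← Finset.mul_sum, h.row, mul_one]

theorem pathProb_nonneg {V : Type} [Fintype V] [DecidableEq V] {P : Matrix V V ℝ} {π : V → ℝ}
    (h : IsChain P π) (s : ℕ) (x : Fin (s + 1) → V) : 0 ≤ pathProb P π s x :=
  mul_nonneg (h.pi_nonneg _) (Finset.prod_nonneg fun _ _ => h.nonneg _ _)

/-- Upper bound for two independent walks of two steps each: both must leave `0`. -/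
theorem union_le : probUnion P5 pi5 2 (fun _ => 2) 5 ≤ (1 - 10000 / 10016 * (9996 / 10000) ^ 2) ^ 2 := by
  classical
  set z : Fin (2 + 1) → Fin 5 := fun _ => 0 with hz
  have hzp : pathProb P5 pi5 2 z = 10000 / 10016 * (9996 / 10000) ^ 2 := by
    simp [pathProb, hz, P5, pi5, div_pow]
  have hle : probUnion P5 pi5 2 (fun _ => 2) 5 ≤
      ∑ x : (i : Fin 2) → (Fin (2 + 1) → Fin 5),
        ∏ i, (if x i = z then 0 else pathProb P5 pi5 2 (x i)) := by
    unfold probUnion
    apply Finset.sum_le_sum
    intro x _
    have hnn : 0 ≤ ∏ i, (if x i = z then 0 else pathProb P5 pi5 2 (x i)) := by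
      apply Finset.prod_nonneg
      intro i _
      split_ifs
      · exact le_rfl
      · exact pathProb_nonneg isChain5 _ _
    split_ifs with hc
    · apply le_of_eq
      apply Finset.prod_congr rfl
      intro i _
      rw [if_neg]
      intro hxi
      have hc' : 5 ≤ ((Finset.univ : Finset (Fin 2)).biUnion fun i => rng 2 (x i)).card := by
        exact_mod_cast hc
      have hsub : ((Finset.univ : Finset (Fin 2)).biUnion fun i => rng 2 (x i)) ⊆
          {0} ∪ rng 2 (x (1 - i)) := by
        intro v hv
        rw [Finset.mem_biUnion] at hv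
        obtain ⟨j, _, hj⟩ := hv
        by_cases hji : j = i
        · subst hji
          rw [hxi] at hj
          simp [rng, hz] at hj
          simp [hj]
        · have : j = 1 - i := by
            fin_cases i <;> fin_cases j <;> simp_all
          rw [← this]
          exact Finset.mem_union_right _ hj
      have h1 := Finset.card_le_card hsub
      have h2 := Finset.card_union_le {0} (rng 2 (x (1 - i)))
      have h3 : (rng 2 (x (1 - i))).card ≤ 3 := by
        unfold rng
        exact Finset.card_image_le.trans (by simp)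
      rw [Finset.card_singleton] at h2
      omega
    · exact hnn
  refine hle.trans (le_of_eq ?_)
  have h0 := Finset.prod_univ_sum (fun _ : Fin 2 => (Finset.univ : Finset (Fin (2 + 1) → Fin 5)))
    (fun _ j => if j = z then 0 else pathProb P5 pi5 2 j)
  rw [Fintype.piFinset_univ] at h0
  rw [← h0]
  have h1 : ∑ j : Fin (2 + 1) → Fin 5, (if j = z then 0 else pathProb P5 pi5 2 j) =
      1 - 10000 / 10016 * (9996 / 10000) ^ 2 := by
    have h2 := sum_pathProb isChain5 2
    rw [← Finset.add_sum_erase _ _ (Finset.mem_univ z), hzp] at h2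
    have h3 : ∑ j : Fin (2 + 1) → Fin 5, (if j = z then 0 else pathProb P5 pi5 2 j) =
        ∑ j ∈ Finset.univ.erase z, pathProb P5 pi5 2 j := by
      rw [← Finset.add_sum_erase _ _ (Finset.mem_univ z)]
      simp only [if_true, zero_add]
      refine Finset.sum_congr rfl fun j hj => ?_
      rw [if_neg (Finset.ne_of_mem_erase hj)]
    rw [h3]
    linarith
  simp only [h1]
  simp

theorem card_inj : ((Finset.univ : Finset (Fin 5 → Fin 5)).filter
    (fun x => Function.Injective x ∧ x 0 = 0)).card = 24 := by
  decide +kernel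

/-- Lower bound for a single walk of four steps. -/
theorem single_ge : 24 * (1 / 10016 * (1 / 4) ^ 3) ≤ probSingle P5 pi5 4 5 := by
  classical
  unfold probSingle
  have hA : ∀ x ∈ (Finset.univ : Finset (Fin 5 → Fin 5)).filter
      (fun x => Function.Injective x ∧ x 0 = 0),
      (1 / 10016 * (1 / 4) ^ 3 : ℝ) ≤ (if (5 : ℝ) ≤ ((rng 4 x).card : ℝ) then
        pathProb P5 pi5 4 x else 0) := by
    intro x hx
    rw [Finset.mem_filter] at hx
    obtain ⟨_, hinj, h0⟩ := hx
    have hcard : (rng 4 x).card = 5 := by
      unfold rng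
      rw [Finset.card_image_of_injective _ hinj]
      rfl
    rw [hcard, if_pos (by norm_num)]
    have h1 : x 1 ≠ 0 := fun h => by
      have := hinj (h.trans h0.symm)
      exact absurd this (by decide)
    have h2 : x 2 ≠ 0 := fun h => by
      have := hinj (h.trans h0.symm)
      exact absurd this (by decide)
    have h3 : x 3 ≠ 0 := fun h => by
      have := hinj (h.trans h0.symm)
      exact absurd this (by decide)
    have h21 : x 2 ≠ x 1 := fun h => absurd (hinj h) (by decide)
    have h32 : x 3 ≠ x 2 := fun h => absurd (hinj h) (by decide)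
    have h43 : x 4 ≠ x 3 := fun h => absurd (hinj h) (by decide)
    have hp : pathProb P5 pi5 4 x = 10000 / 10016 * (P5 (x 0) (x 1) * (P5 (x 1) (x 2) *
        (P5 (x 2) (x 3) * P5 (x 3) (x 4)))) := by
      simp [pathProb, Fin.prod_univ_succ, pi5, h0]
    rw [hp]
    have e1 : P5 (x 0) (x 1) = 1 / 10000 := by simp [P5, h0, h1]
    have e2 : P5 (x 1) (x 2) = 1 / 4 := by simp [P5, h1, h21]
    have e3 : P5 (x 2) (x 3) = 1 / 4 := by simp [P5, h2, h32]
    have e4 : P5 (x 3) (x 4) = 1 / 4 := by simp [P5, h3, h43]
    rw [e1, e2, e3, e4]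
    norm_num
  have hs := Finset.card_nsmul_le_sum _ _ _ hA
  rw [card_inj] at hs
  have hsub : ∑ x ∈ (Finset.univ : Finset (Fin 5 → Fin 5)).filter
      (fun x => Function.Injective x ∧ x 0 = 0), (if (5 : ℝ) ≤ ((rng 4 x).card : ℝ) then
        pathProb P5 pi5 4 x else 0) ≤
      ∑ x : Fin (4 + 1) → Fin 5, (if (5 : ℝ) ≤ ((rng 4 x).card : ℝ) then
        pathProb P5 pi5 4 x else 0) := by
    apply Finset.sum_le_sum_of_subset_of_nonneg (Finset.filter_subset _ _)
    intro x _ _
    split_ifs
    · exact pathProb_nonneg isChain5 _ _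
    · exact le_rfl
  refine le_trans ?_ hsub
  simpa using hs

/-- **MP_55034c_pr, Q1 is false.**  It is not true that for every reversible, irreducible and
aperiodic finite chain, every `k`, all positive times `t₁, …, t_k` and every `y > 0` the union of the
ranges of `k` independent stationary chains run for times `t₁, …, t_k` is at least `y` with
probability at least the probability that the range of one stationary chain run for time
`t₁ + … + t_k` is at least `y`. -/
theorem result : ¬ ∀ (V : Type) [Fintype V] [DecidableEq V] (P : Matrix V V ℝ) (π : V → ℝ),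
    IsChain P π → ∀ (k : ℕ), 1 ≤ k → ∀ (t : Fin k → ℕ), (∀ i, 0 < t i) → ∀ y : ℝ, 0 < y →
      probSingle P π (∑ i, t i) y ≤ probUnion P π k t y := by
  intro h
  have h1 := h (Fin 5) P5 pi5 isChain5 2 (by norm_num) (fun _ => 2) (fun _ => by norm_num) 5
    (by norm_num)
  have h2 : (∑ _i : Fin 2, 2) = 4 := by simp
  rw [h2] at h1
  have h3 := single_ge.trans (h1.trans union_le)
  norm_num at h3

end Pool.Agent.Results.MP_55034c_pr.UnionOfRanges
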